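import Pool.Agent.LebOct.Chain

/-! # Octagon: the corner region of the pentagon body -/

namespace PoolOct

open PoolHex (rot6 nrm fn Seg BCert Hx act nR rotR Cov win Quad)

/-- half of the scale -/
def Hh : ℤ := 50000000000000000000000

/-- the part of the corner triangle within distance `1` of the points `(Hh - T, T)` and
`(T - Hh, Hh)` -/
def RA (T : ℤ) : Set (ℝ × ℝ) :=
  {v | 4 * nR (v - toR (Hh - T, T)) ≤ 3 ∧ 4 * nR (v - toR (T - Hh, Hh)) ≤ 3 ∧
    -v.1 - v.2 ≤ 1 / 2 ∧ -v.2 ≤ 1 / 2 ∧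
    (100000000000000000000000 - T : ℝ) ≤ 100000000000000000000000 * (-v.1 - 2 * v.2)}

theorem conv3 {A B C P v : ℝ × ℝ} {a b c : ℝ} (ha : 0 ≤ a) (hb : 0 ≤ b) (hc : 0 ≤ c)
    (h : a + b + c = 1) (h1 : v.1 = a * A.1 + b * B.1 + c * C.1)
    (h2 : v.2 = a * A.2 + b * B.2 + c * C.2)
    (hA : 4 * nR (A - P) ≤ 3) (hB : 4 * nR (B - P) ≤ 3) (hC : 4 * nR (C - P) ≤ 3) :
    4 * nR (v - P) ≤ 3 := by
  have pos : ∀ u w : ℝ × ℝ, 0 ≤ nR (u - w) := by
    intro u w
    simp only [nR, Prod.fst_sub, Prod.snd_sub]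
    nlinarith [sq_nonneg ((u.1 - w.1) + (u.2 - w.2)), sq_nonneg (u.1 - w.1), sq_nonneg (u.2 - w.2)]
  have e : nR (v - P) = a * nR (A - P) + b * nR (B - P) + c * nR (C - P) -
      (a * b * nR (A - B) + b * c * nR (B - C) + a * c * nR (A - C)) := by
    have hc' : c = 1 - a - b := by linarith
    subst hc'
    simp only [nR, Prod.fst_sub, Prod.snd_sub, h1, h2]
    ring
  have q1 := mul_nonneg (mul_nonneg ha hb) (pos A B)
  have q2 := mul_nonneg (mul_nonneg hb hc) (pos B C)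
  have q3 := mul_nonneg (mul_nonneg ha hc) (pos A C)
  have r1 := mul_le_mul_of_nonneg_left hA ha
  have r2 := mul_le_mul_of_nonneg_left hB hb
  have r3 := mul_le_mul_of_nonneg_left hC hc
  rw [e]
  nlinarith

/-- the third vertex of the corner triangle -/
noncomputable def P5 : ℝ × ℝ := (0, -1 / 2)

theorem P5_eq : P5 = toR (0, -Hh) := by
  unfold P5 toR Hh
  ext <;> norm_num

theorem tri_bary {T : ℤ} (hT : 0 < T) {v : ℝ × ℝ} (hv : v ∈ RA T) :
    ∃ a b c : ℝ, 0 ≤ a ∧ 0 ≤ b ∧ 0 ≤ c ∧ a + b + c = 1 ∧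
      v.1 = a * (toR (-T, T - Hh)).1 + b * (toR (T, -Hh)).1 + c * P5.1 ∧
      v.2 = a * (toR (-T, T - Hh)).2 + b * (toR (T, -Hh)).2 + c * P5.2 := by
  obtain ⟨_, _, h1, h2, h3⟩ := hv
  have hT' : (0 : ℝ) < T := by exact_mod_cast hT
  refine ⟨100000000000000000000000 * (1 / 2 + v.2) / T,
    100000000000000000000000 * (1 / 2 + v.1 + v.2) / T,
    1 - 100000000000000000000000 * (1 / 2 + v.2) / T -
      100000000000000000000000 * (1 / 2 + v.1 + v.2) / T, ?_, ?_, ?_, by ring, ?_, ?_⟩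
  · exact div_nonneg (by linarith) hT'.le
  · exact div_nonneg (by linarith) hT'.le
  · rw [sub_sub, ← add_div, sub_nonneg, div_le_one hT']
    linarith
  · simp only [toR, P5, Hh]
    push_cast
    field_simp
    ring
  · simp only [toR, P5, Hh]
    push_cast
    field_simp
    ring

/-- the distances of the points of the body from the vertices of the corner triangle, except the
points `ib` and `ic` -/
def triOK (B : Pts) (T : ℤ) (ib ic : ℕ) : ℕ → Bool
  | 0 => true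
  | n + 1 => (Nat.beq n ib || Nat.beq n ic ||
      (decide (4 * nrm (-T - (pt B n).1, T - Hh - (pt B n).2) ≤ 3 * N * N) &&
        decide (4 * nrm (T - (pt B n).1, -Hh - (pt B n).2) ≤ 3 * N * N) &&
        decide (4 * nrm (0 - (pt B n).1, -Hh - (pt B n).2) ≤ 3 * N * N))) && triOK B T ib ic n

theorem tri_get {B : Pts} {T : ℤ} {ib ic : ℕ} : ∀ {n : ℕ}, triOK B T ib ic n = true → ∀ j < n,
    j = ib ∨ j = ic ∨ (4 * nrm (-T - (pt B j).1, T - Hh - (pt B j).2) ≤ 3 * N * N ∧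
        4 * nrm (T - (pt B j).1, -Hh - (pt B j).2) ≤ 3 * N * N ∧
        4 * nrm (0 - (pt B j).1, -Hh - (pt B j).2) ≤ 3 * N * N) := by
  intro n
  induction n with
  | zero => intro _ j hj; exact absurd hj (Nat.not_lt_zero _)
  | succ n ih =>
    intro h j hj
    rw [triOK] at h
    simp only [Bool.and_eq_true, Bool.or_eq_true, decide_eq_true_iff] at h
    rcases Nat.lt_succ_iff_lt_or_eq.1 hj with h1 | h1
    · exact ih h.2 j h1
    · rw [h1]
      rcases h.1 with (h2 | h2) | h2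
      · exact Or.inl (Nat.eq_of_beq_eq_true h2)
      · exact Or.inr (Or.inl (Nat.eq_of_beq_eq_true h2))
      · exact Or.inr (Or.inr ⟨h2.1.1, h2.1.2, h2.2⟩)

theorem RA_body {B : Pts} {T : ℤ} {ib ic : ℕ} (hT : 0 < T) (h : triOK B T ib ic B.length = true)
    (hb : pt B ib = (Hh - T, T)) (hc : pt B ic = (T - Hh, Hh)) :
    ∀ v ∈ RA T, ∀ j < B.length, 4 * nR (v - toR (pt B j)) ≤ 3 := by
  intro v hv j hj
  rcases tri_get h j hj with h1 | h1 | ⟨h1, h2, h3⟩
  · rw [h1, hb]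
    exact hv.1
  · rw [h1, hc]
    exact hv.2.1
  · obtain ⟨a, b, c, ha, hb, hc, hs, e1, e2⟩ := tri_bary hT hv
    refine conv3 ha hb hc hs e1 e2 (nR_le h1) (nR_le h2) ?_
    rw [P5_eq]
    exact nR_le h3

theorem RA_diam {T : ℤ} (hT : 0 < T) (hT2 : 4 * T ≤ N) :
    ∀ v ∈ RA T, ∀ w ∈ RA T, 4 * nR (v - w) ≤ 3 := by
  have hT' : (0 : ℝ) < T := by exact_mod_cast hT
  have hT2' : (4 : ℝ) * T ≤ 100000000000000000000000 := by
    unfold N at hT2
    exact_mod_cast hT2
  set t : ℝ := (T : ℝ) / 100000000000000000000000 with ht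
  have ht0 : 0 ≤ t := by positivity
  have ht1 : 4 * t ≤ 1 := by
    rw [ht]
    rw [← mul_div_assoc, div_le_one (by norm_num)]
    exact hT2'
  have eA : toR (-T, T - Hh) = (-t, t - 1 / 2) := by
    unfold toR Hh
    ext
    · simp only [ht]; push_cast; ring
    · simp only [ht]; push_cast; ring
  have eB : toR (T, -Hh) = (t, -1 / 2) := by
    unfold toR Hh
    ext
    · simp only [ht]
    · simp only []; push_cast; norm_num
  have t2 : t ^ 2 ≤ 1 / 16 := by nlinarith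
  have key : ∀ P : ℝ × ℝ, 4 * nR (toR (-T, T - Hh) - P) ≤ 3 → 4 * nR (toR (T, -Hh) - P) ≤ 3 →
      4 * nR (P5 - P) ≤ 3 → ∀ v ∈ RA T, 4 * nR (v - P) ≤ 3 := by
    intro P h1 h2 h3 v hv
    obtain ⟨a, b, c, ha, hb, hc, hs, e1, e2⟩ := tri_bary hT hv
    exact conv3 ha hb hc hs e1 e2 h1 h2 h3
  intro v hv w hw
  refine key w ?_ ?_ ?_ v hv
  · rw [nR_symm]
    refine key _ ?_ ?_ ?_ w hw
    · simp only [nR, eA, Prod.fst_sub, Prod.snd_sub]; nlinarith
    · simp only [nR, eA, eB, Prod.fst_sub, Prod.snd_sub]; nlinarith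
    · simp only [nR, eA, P5, Prod.fst_sub, Prod.snd_sub]; nlinarith
  · rw [nR_symm]
    refine key _ ?_ ?_ ?_ w hw
    · simp only [nR, eA, eB, Prod.fst_sub, Prod.snd_sub]; nlinarith
    · simp only [nR, eB, Prod.fst_sub, Prod.snd_sub]; nlinarith
    · simp only [nR, eB, P5, Prod.fst_sub, Prod.snd_sub]; nlinarith
  · rw [nR_symm]
    refine key _ ?_ ?_ ?_ w hw
    · simp only [nR, eA, P5, Prod.fst_sub, Prod.snd_sub]; nlinarith
    · simp only [nR, eB, P5, Prod.fst_sub, Prod.snd_sub]; nlinarith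
    · simp only [nR, P5, Prod.fst_sub, Prod.snd_sub]; nlinarith

theorem aff {e1 e2 e3 s d : ℝ} (h1 : |e1| ≤ 3200) (h2 : |e2| ≤ 3200) (h3 : |e3| ≤ 3200)
    (hs0 : 0 ≤ s) (hs1 : s ≤ 6 / 5) (hd : |d| ≤ 1) :
    |(1 - s + d) / 2 * e1 + (1 - s - d) / 2 * e2 + s * e3| ≤ 8000 := by
  have hs : |1 - s| ≤ 1 := abs_le.2 ⟨by linarith, by linarith⟩
  have a1 : |(e1 + e2) / 2 * (1 - s)| ≤ |(e1 + e2) / 2| := by
    rw [abs_mul]
    exact mul_le_of_le_one_right (abs_nonneg _) hs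
  have a2 : |(e1 - e2) / 2 * d| ≤ |(e1 - e2) / 2| := by
    rw [abs_mul]
    exact mul_le_of_le_one_right (abs_nonneg _) hd
  have a3 : |s * e3| ≤ 6 / 5 * 3200 := by
    rw [abs_mul, abs_of_nonneg hs0]
    exact mul_le_mul hs1 h3 (abs_nonneg _) (by norm_num)
  have a4 : |(e1 + e2) / 2| + |(e1 - e2) / 2| ≤ 3200 := by
    rw [abs_le] at h1 h2
    rcases abs_cases ((e1 + e2) / 2) with ⟨q, _⟩ | ⟨q, _⟩ <;>
      rcases abs_cases ((e1 - e2) / 2) with ⟨r, _⟩ | ⟨r, _⟩ <;> rw [q, r] <;> linarith [h1.1, h1.2, h2.1, h2.2]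
  have e : (1 - s + d) / 2 * e1 + (1 - s - d) / 2 * e2 + s * e3 =
      (e1 + e2) / 2 * (1 - s) + (e1 - e2) / 2 * d + s * e3 := by ring
  rw [e]
  have b1 := abs_add_le ((e1 + e2) / 2 * (1 - s) + (e1 - e2) / 2 * d) (s * e3)
  have b2 := abs_add_le ((e1 + e2) / 2 * (1 - s)) ((e1 - e2) / 2 * d)
  linarith

/-- a motion which moves three points of the corner little moves the corner region little -/
theorem RA_close {T z : ℤ} (hT : 0 < T) (hz : 5 * T ≤ 6 * (2 * z - (N - T))) {al be : ℝ} {t : ℝ × ℝ}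
    (h1 : Cl (act al be t (toR (-T, T - Hh))) (-T, T - Hh))
    (h2 : Cl (act al be t (toR (T, -Hh))) (T, -Hh))
    (h3 : Cl (act al be t (toR (0, -z))) (0, -z)) {v : ℝ × ℝ} (hv : v ∈ RA T) :
    |100000000000000000000000 * (act al be t v).2 - 100000000000000000000000 * v.2| ≤ 8000 ∧
      |100000000000000000000000 * ((act al be t v).1 + (act al be t v).2) -
        100000000000000000000000 * (v.1 + v.2)| ≤ 8000 := by
  obtain ⟨_, _, hv1, hv2, hv3⟩ := hv
  obtain ⟨_, p2, p3⟩ := h1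
  obtain ⟨_, q2, q3⟩ := h2
  obtain ⟨_, r2, r3⟩ := h3
  have hT' : (0 : ℝ) < T := by exact_mod_cast hT
  have hz' : (5 : ℝ) * T ≤ 6 * (2 * z - (100000000000000000000000 - T)) := by
    unfold N at hz
    exact_mod_cast hz
  set D : ℝ := 2 * z - (100000000000000000000000 - T) with hD
  have hD0 : 0 < D := by linarith
  set s : ℝ := (100000000000000000000000 * (-v.1 - 2 * v.2) - (100000000000000000000000 - T)) / D
    with hs
  set d : ℝ := 100000000000000000000000 * (-v.1) / T with hd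
  have hs0 : 0 ≤ s := div_nonneg (by linarith) hD0.le
  have hs1 : s ≤ 6 / 5 := by
    rw [hs, div_le_iff₀ hD0]
    linarith
  have hd1 : |d| ≤ 1 := by
    rw [hd, abs_div, abs_of_pos hT', div_le_one hT', abs_le]
    constructor <;> linarith
  have ed : d * T = 100000000000000000000000 * (-v.1) := by
    rw [hd, div_mul_cancel₀ _ hT'.ne']
  have es : s * D = 100000000000000000000000 * (-v.1 - 2 * v.2) - (100000000000000000000000 - T) := by
    rw [hs, div_mul_cancel₀ _ hD0.ne']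
  clear_value s d
  have f1 := aff p2 q2 r2 hs0 hs1 hd1
  have f2 := aff p3 q3 r3 hs0 hs1 hd1
  -- barycentric identities
  have w1 : 100000000000000000000000 * v.1 = (1 - s + d) / 2 * (-T) + (1 - s - d) / 2 * T + s * 0 := by
    linear_combination ed
  have w2 : 100000000000000000000000 * v.2 = (1 - s + d) / 2 * (T - 50000000000000000000000) +
      (1 - s - d) / 2 * (-50000000000000000000000) + s * (-z) := by
    rw [hD] at es
    linear_combination (1 / 2 : ℝ) * es - (1 / 2 : ℝ) * ed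
  constructor
  · refine le_trans (le_of_eq ?_) f1
    congr 1
    simp only [act, toR, Hh]
    push_cast
    linear_combination (al + be - 1) * w2 + 2 * be * w1
  · refine le_trans (le_of_eq ?_) f2
    congr 1
    simp only [act, toR, Hh]
    push_cast
    linear_combination (al - 1) * (w1 + w2) + be * (w1 - w2)

end PoolOct
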