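import Pool.Agent.LebOct.Close

/-! # Octagon: the copies of a body contained in a cover -/

namespace PoolOct

open PoolHex (rot6 nrm fn Seg BCert Hx act nR rotR Cov)

theorem nrm_symm (v w : ℤ × ℤ) :
    nrm (v.1 - w.1, v.2 - w.2) = nrm (w.1 - v.1, w.2 - v.2) := by
  simp only [nrm]
  ring

theorem pair_get (v : ℤ × ℤ) : ∀ (l : Pts), pairOK v l = true →
    ∀ w ∈ l, 4 * nrm (v.1 - w.1, v.2 - w.2) ≤ 3 * N * N := by
  intro l
  induction l with
  | nil =>
    intro _ w hw
    exact absurd hw List.not_mem_nil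
  | cons u l ih =>
    intro h w hw
    rw [pairOK, Bool.and_eq_true, decide_eq_true_iff] at h
    rcases List.mem_cons.1 hw with rfl | hw
    · exact h.1
    · exact ih h.2 w hw

theorem diam_sound : ∀ (l : Pts), diamOK l = true →
    ∀ v ∈ l, ∀ w ∈ l, 4 * nrm (v.1 - w.1, v.2 - w.2) ≤ 3 * N * N := by
  intro l
  induction l with
  | nil =>
    intro _ w hw
    exact absurd hw List.not_mem_nil
  | cons u l ih =>
    intro h v hv w hw
    rw [diamOK, Bool.and_eq_true] at h
    rcases List.mem_cons.1 hv with rfl | hv'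
    · rcases List.mem_cons.1 hw with rfl | hw
      · simp only [nrm, sub_self, mul_zero, add_zero]
        unfold N
        norm_num
      · exact pair_get v l h.1 w hw
    · rcases List.mem_cons.1 hw with rfl | hw
      · rw [nrm_symm]
        exact pair_get w l h.1 v hv'
      · exact ih h.2 v hv' w hw

theorem nR_toR (P P' : ℤ × ℤ) :
    100000000000000000000000 ^ 2 * nR (toR P - toR P') = ((nrm (P.1 - P'.1, P.2 - P'.2) : ℤ) : ℝ) := by
  simp only [nR, nrm, toR, Prod.fst_sub, Prod.snd_sub]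
  push_cast
  ring

theorem nR_le {P P' : ℤ × ℤ} (h : 4 * nrm (P.1 - P'.1, P.2 - P'.2) ≤ 3 * N * N) :
    4 * nR (toR P - toR P') ≤ 3 := by
  have h2 := nR_toR P P'
  have h3 : (4 : ℝ) * ((nrm (P.1 - P'.1, P.2 - P'.2) : ℤ) : ℝ) ≤
      3 * 100000000000000000000000 * 100000000000000000000000 := by
    unfold N at h
    exact_mod_cast h
  rw [← h2] at h3
  nlinarith

theorem nR_symm (v w : ℝ × ℝ) : nR (v - w) = nR (w - v) := by
  simp only [nR, Prod.fst_sub, Prod.snd_sub]
  ring

/-- a cover inside the hexagon contains a copy of the body together with the set `A`, near one of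
the six positions -/
theorem body_sound {B : Pts} {c : BCert} (h : bodyOK B c = true) {A : Set (ℝ × ℝ)}
    (hA : ∀ v ∈ A, ∀ w ∈ A, 4 * nR (v - w) ≤ 3)
    (hAB : ∀ v ∈ A, ∀ j < B.length, 4 * nR (v - toR (pt B j)) ≤ 3)
    {K : Set (ℝ × ℝ)} (hc : Cov K) (hH : K ⊆ Hx) :
    ∃ k < 6, ∃ (al be : ℝ) (t : ℝ × ℝ), (∀ j < B.length, act al be t (toR (pt B j)) ∈ K) ∧
      (∀ j < B.length, Cl (act al be t (toR (pt B j))) (rot6 k (pt B j))) ∧
      ∀ v ∈ A, act al be t v ∈ K := by
  unfold bodyOK at h
  simp only [Bool.and_eq_true, decide_eq_true_iff] at h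
  obtain ⟨⟨⟨⟨⟨⟨hn, hco⟩, hdi⟩, hex⟩, hcont⟩, hl⟩, hr⟩ := h
  obtain ⟨al, be, t, hn1, hin⟩ := hc ({v | ∃ j < B.length, v = toR (pt B j)} ∪ A) (by
    rintro v (⟨j, hj, rfl⟩ | hv) w (⟨j', hj', rfl⟩ | hw)
    · exact nR_le (diam_sound _ hdi _ (pt_mem hj) _ (pt_mem hj'))
    · rw [nR_symm]
      exact hAB w hw j hj
    · exact hAB v hv j' hj'
    · exact hA v hv w hw) (by
    refine ⟨_, Or.inl ⟨0, by omega, rfl⟩, _, Or.inl ⟨1, by omega, rfl⟩, ?_⟩
    have h2 := nR_toR (pt B 0) (pt B 1)
    have h3 : (4 : ℝ) * ((nrm ((pt B 0).1 - (pt B 1).1, (pt B 0).2 - (pt B 1).2) : ℤ) : ℝ) =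
        3 * 100000000000000000000000 * 100000000000000000000000 := by
      unfold N at hex
      exact_mod_cast hex
    rw [← h2] at h3
    nlinarith)
  have hin1 : ∀ j < B.length, act al be t (toR (pt B j)) ∈ K := fun j hj =>
    hin _ (Or.inl ⟨j, hj, rfl⟩)
  have hin2 : ∀ j < B.length, act al be t (toR (pt B j)) ∈ Hx := fun j hj => hH (hin1 j hj)
  obtain ⟨k, hk, hcl⟩ := normalise (B := B) (by
    intro al be t hn hcone hin
    have hal : 0 < al := by
      rcases eq_or_lt_of_le ((mul_nonneg (by norm_num) (abs_nonneg be)).trans hcone) with h0 | h0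
      · exfalso
        rw [← h0] at hcone hn
        have h1 : be = 0 := by
          have := abs_nonneg be
          exact abs_eq_zero.1 (by linarith)
        rw [h1] at hn
        norm_num at hn
      · exact h0
    set x : ℝ := 300000000000000000000000 * be / al with hx
    have hxe : 300000000000000000000000 * be = x * al := by
      rw [hx, div_mul_cancel₀ _ hal.ne']
    have habs : |x| ≤ 100000000000000000000000 := by
      rw [hx, abs_div, abs_of_pos hal, div_le_iff₀ hal, abs_mul,
        abs_of_pos (by norm_num : (0 : ℝ) < 300000000000000000000000)]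
      linarith
    have hx3 : |x| ≤ 3000 := by
      rw [abs_le] at habs
      by_contra hcon
      rw [abs_le, not_and_or, not_le, not_le] at hcon
      rcases hcon with h1 | h1
      · refine excl_sound c.left _ hl hal hn hxe hin ?_ ?_
        · push_cast
          exact habs.1
        · unfold sg
          push_cast
          exact h1
      · refine excl_sound c.right _ hr hal hn hxe hin ?_ ?_
        · unfold sg
          push_cast
          exact h1.le
        · push_cast
          linarith [habs.2]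
    exact cont_close hco hcont hal hn hxe hin hx3) hn1 hin2
  exact ⟨k, hk, al, be, t, hin1, hcl, fun v hv => hin v (Or.inr hv)⟩

theorem sqrt3_lt : Real.sqrt 3 / 2 * 100000000000000000000000 ≤ (h3 : ℝ) := by
  have h : Real.sqrt 3 ≤ 173205080756887729352746 / 100000000000000000000000 := by
    rw [show (173205080756887729352746 / 100000000000000000000000 : ℝ) =
      Real.sqrt ((173205080756887729352746 / 100000000000000000000000) ^ 2) by
        rw [Real.sqrt_sq (by norm_num)]]
    apply Real.sqrt_le_sqrt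
    norm_num
  unfold h3
  push_cast
  linarith

/-- a copy with a point beyond a cut is not in the octagon -/
theorem cut_sound {B : Pts} {k j : ℕ} (h : cutOK B k j = true) {z : ℝ × ℝ} (hz : z ∈ Oc)
    (hc : Cl z (rot6 k (pt B j))) : False := by
  unfold cutOK at h
  simp only [Bool.and_eq_true, Bool.or_eq_true, decide_eq_true_iff] at h
  obtain ⟨_, h⟩ := h
  obtain ⟨_, h1, h2⟩ := hz
  obtain ⟨c1, c2, c3⟩ := hc
  rw [abs_le] at c1 c2 c3
  have hs := sqrt3_lt
  rcases h with h | h
  · have h' : (h3 : ℝ) + 20000 < 2 * ((rot6 k (pt B j)).1 : ℝ) + (rot6 k (pt B j)).2 := by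
      exact_mod_cast h
    linarith [c1.1, c1.2, c2.1, c2.2, c3.1, c3.2]
  · have h' : (h3 : ℝ) + 20000 < ((rot6 k (pt B j)).2 : ℝ) - (rot6 k (pt B j)).1 := by
      exact_mod_cast h
    linarith [c1.1, c1.2, c2.1, c2.2, c3.1, c3.2]

/-- for each of the positions `1, ..., 5` some point is beyond a cut -/
def cutsOK (B : Pts) : ℕ → List ℕ → Bool
  | k, [] => decide (6 ≤ k)
  | k, j :: l => cutOK B k j && cutsOK B (k + 1) l

theorem cuts_sound {B : Pts} : ∀ (l : List ℕ) (k : ℕ), cutsOK B k l = true →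
    ∀ m, k ≤ m → m < 6 → ∃ j, cutOK B m j = true := by
  intro l
  induction l with
  | nil =>
    intro k h m h1 h2
    rw [cutsOK, decide_eq_true_iff] at h
    omega
  | cons j l ih =>
    intro k h m h1 h2
    rw [cutsOK, Bool.and_eq_true] at h
    rcases eq_or_lt_of_le h1 with h3 | h3
    · rw [← h3]
      exact ⟨j, h.1⟩
    · exact ih (k + 1) h.2 m h3 h2

/-- a cover inside the octagon contains the body near the reference position -/
theorem body_oct {B : Pts} {c : BCert} (h : bodyOK B c = true) {l : List ℕ}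
    (hl : cutsOK B 1 l = true) {A : Set (ℝ × ℝ)}
    (hA : ∀ v ∈ A, ∀ w ∈ A, 4 * nR (v - w) ≤ 3)
    (hAB : ∀ v ∈ A, ∀ j < B.length, 4 * nR (v - toR (pt B j)) ≤ 3)
    {K : Set (ℝ × ℝ)} (hc : Cov K) (hH : K ⊆ Oc) :
    ∃ (al be : ℝ) (t : ℝ × ℝ), (∀ j < B.length, act al be t (toR (pt B j)) ∈ K) ∧
      (∀ j < B.length, Cl (act al be t (toR (pt B j))) (pt B j)) ∧
      ∀ v ∈ A, act al be t v ∈ K := by
  obtain ⟨k, hk, al, be, t, h1, h2, h3⟩ := body_sound h hA hAB hc (fun v hv => (hH hv).1)
  rcases Nat.eq_zero_or_pos k with h0 | h0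
  · subst h0
    exact ⟨al, be, t, h1, h2, h3⟩
  · exfalso
    obtain ⟨j, hj⟩ := cuts_sound l 1 hl k h0 hk
    have hj' : j < B.length := by
      unfold cutOK at hj
      simp only [Bool.and_eq_true, decide_eq_true_iff] at hj
      exact hj.1
    exact cut_sound hj (hH (h1 j hj')) (h2 j hj')

end PoolOct
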