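import Pool.Agent.LebOct.Pos
import Pool.Agent.LebHex.S1
import Pool.Agent.LebHex.S2

/-! # Octagon: soundness of the chains -/

open MeasureTheory

namespace PoolOct

open PoolHex (rot6 nrm fn Seg BCert Hx act nR rotR Cov win Quad fan fanOK sector_vol win_convex)

/-- the chain value: `0` on failure, otherwise the accumulated value -/
def chain : ℕ → ℕ → ℕ → List (ℕ × ℕ) → ℕ
  | x, y, acc, [] =>
    bif Nat.ble (y * 0 + kap) (x * (Nn / 2)) then acc + (x * (Nn / 2) - y * 0 - kap) else 0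
  | x, y, acc, v :: l =>
    bif Nat.ble DD v.1 && Nat.ble DD v.2 && Nat.ble (2 * v.1) Nn && Nat.ble (2 * v.2) Nn &&
        Nat.ble (y * v.1 + kap) (x * v.2) && Nat.ble acc (8 * Nn * Nn) then
      chain v.1 v.2 (acc + (x * v.2 - y * v.1 - kap)) l
    else 0

/-- the point `(x, y) / 10^23` is near a point of `K`, in the frame of window `w` -/
def NW (K : Set (ℝ × ℝ)) (w : ℕ) (v : ℕ × ℕ) : Prop :=
  ∃ z ∈ win w '' K, |100000000000000000000000 * z.1 - v.1| ≤ 8000 ∧
    |100000000000000000000000 * z.2 - v.2| ≤ 8000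

theorem edge {v u : ℝ × ℝ} {x y X Y : ℕ} (hx : 2 * x ≤ Nn) (hy : 2 * y ≤ Nn)
    (hX : 2 * X ≤ Nn) (hY : 2 * Y ≤ Nn)
    (h1 : |100000000000000000000000 * v.1 - x| ≤ 8000) (h2 : |100000000000000000000000 * v.2 - y| ≤ 8000)
    (h3 : |100000000000000000000000 * u.1 - X| ≤ 8000) (h4 : |100000000000000000000000 * u.2 - Y| ≤ 8000)
    (h : y * X + kap ≤ x * Y) :
    0 < v.1 * u.2 - v.2 * u.1 ∧
      ((x * Y - y * X - kap : ℕ) : ℝ) ≤ 100000000000000000000000 ^ 2 * (v.1 * u.2 - v.2 * u.1) := by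
  have hcast : ((x * Y - y * X - kap : ℕ) : ℝ) = (x : ℝ) * Y - y * X - kap := by
    have h5 : (x * Y - y * X - kap) + (y * X + kap) = x * Y := by omega
    have h6 := congrArg (fun n : ℕ => (n : ℝ)) h5
    push_cast at h6
    linarith
  have hk : (kap : ℝ) = 2400000000000000000000000000 := by
    unfold kap DD Nn
    norm_num
  have hR : ((y : ℝ) * X + kap) ≤ x * Y := by exact_mod_cast h
  have bd : ∀ n : ℕ, 2 * n ≤ Nn → |(n : ℝ)| ≤ 50000000000000000000000 := by
    intro n hn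
    have h5 : (2 : ℝ) * n ≤ 100000000000000000000000 := by
      have : ((2 * n : ℕ) : ℝ) ≤ (Nn : ℝ) := by exact_mod_cast hn
      have h6 : (Nn : ℝ) = 100000000000000000000000 := by
        unfold Nn
        norm_num
      rw [h6] at this
      push_cast at this
      exact this
    rw [abs_of_nonneg (Nat.cast_nonneg n)]
    linarith
  have a1 := hex5a_prod (bd x hx) h4
  have a2 := hex5a_prod (bd Y hY) h1
  have a3 := hex5a_prod h1 h4
  have a4 := hex5a_prod (bd y hy) h3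
  have a5 := hex5a_prod (bd X hX) h2
  have a6 := hex5a_prod h2 h3
  have e : (100000000000000000000000 : ℝ) ^ 2 * (v.1 * u.2 - v.2 * u.1) = (x : ℝ) * Y - y * X +
      (x : ℝ) * (100000000000000000000000 * u.2 - Y) + (Y : ℝ) * (100000000000000000000000 * v.1 - x) +
      (100000000000000000000000 * v.1 - x) * (100000000000000000000000 * u.2 - Y) -
      (y : ℝ) * (100000000000000000000000 * u.1 - X) - (X : ℝ) * (100000000000000000000000 * v.2 - y) -
      (100000000000000000000000 * v.2 - y) * (100000000000000000000000 * u.1 - X) := by ring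
  rw [abs_le] at a1 a2 a3 a4 a5 a6
  rw [hk] at hcast hR
  have key : (x : ℝ) * Y - y * X - 2000000000000000000000000000 ≤
      100000000000000000000000 ^ 2 * (v.1 * u.2 - v.2 * u.1) := by
    rw [e]
    linarith [a1.1, a2.1, a3.1, a4.2, a5.2, a6.2]
  constructor
  · by_contra hneg
    rw [not_lt] at hneg
    have : (100000000000000000000000 : ℝ) ^ 2 * (v.1 * u.2 - v.2 * u.1) ≤ 0 :=
      mul_nonpos_of_nonneg_of_nonpos (by positivity) hneg
    linarith
  · rw [hcast]
    linarith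

theorem chain_ind {w : ℕ} {K : Set (ℝ × ℝ)} (l : List (ℕ × ℕ)) :
    ∀ (x y acc : ℕ) (v : ℝ × ℝ), 2 * x ≤ Nn → 2 * y ≤ Nn →
      |100000000000000000000000 * v.1 - x| ≤ 8000 → |100000000000000000000000 * v.2 - y| ≤ 8000 →
      (∀ u ∈ l, NW K w u) → 0 < chain x y acc l →
      ∃ l' : List (ℝ × ℝ), (∀ u ∈ l', u ∈ win w '' K ∧ 0 ≤ u.1 ∧ 0 ≤ u.2) ∧
        fanOK v (l' ++ [(0, 1 / 2)]) ∧
        (chain x y acc l : ℝ) - acc ≤
          100000000000000000000000 ^ 2 * fan v (l' ++ [(0, 1 / 2)]) := by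
  induction l with
  | nil =>
    intro x y acc v hx hy h1 h2 _ h
    rw [chain] at h ⊢
    cases hc : Nat.ble (y * 0 + kap) (x * (Nn / 2)) with
    | false =>
      rw [hc, cond_false] at h
      exact absurd h (lt_irrefl _)
    | true =>
      rw [cond_true]
      have hc' := Nat.le_of_ble_eq_true hc
      have h3 := edge (v := v) (u := (0, 1 / 2)) (X := 0) (Y := Nn / 2) hx hy
        (Nat.zero_le _) (by unfold Nn; norm_num) h1 h2 (by norm_num) (by
          unfold Nn
          norm_num) hc'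
      refine ⟨[], by simp, ?_, ?_⟩
      · exact ⟨h3.1, trivial⟩
      · have h4 := h3.2
        rw [List.nil_append]
        simp only [fan, add_zero]
        push_cast at h4 ⊢
        linarith
  | cons n l ih =>
    intro x y acc v hx hy h1 h2 hN h
    rw [chain] at h ⊢
    cases hc : (Nat.ble DD n.1 && Nat.ble DD n.2 && Nat.ble (2 * n.1) Nn && Nat.ble (2 * n.2) Nn &&
        Nat.ble (y * n.1 + kap) (x * n.2) && Nat.ble acc (8 * Nn * Nn)) with
    | false =>
      rw [hc, cond_false] at h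
      exact absurd h (lt_irrefl _)
    | true =>
      rw [hc, cond_true] at h
      rw [cond_true]
      simp only [Bool.and_eq_true] at hc
      obtain ⟨⟨⟨⟨⟨hc4, hc5⟩, hc1⟩, hc2⟩, hc6⟩, _⟩ := hc
      have hc4' := Nat.le_of_ble_eq_true hc4
      have hc5' := Nat.le_of_ble_eq_true hc5
      have hc6' := Nat.le_of_ble_eq_true hc6
      have hb2 := Nat.le_of_ble_eq_true hc1
      have hb3 := Nat.le_of_ble_eq_true hc2
      obtain ⟨u, hu, e1, e2⟩ := hN n List.mem_cons_self
      obtain ⟨l', hl1, hl2, hl3⟩ := ih n.1 n.2 _ u hb2 hb3 e1 e2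
        (fun z hz => hN z (List.mem_cons_of_mem _ hz)) h
      have h3 := edge (v := v) (u := u) hx hy hb2 hb3 h1 h2 e1 e2 hc6'
      have hDD : (DD : ℝ) = 8000 := by
        unfold DD
        norm_num
      have f1 : (8000 : ℝ) ≤ n.1 := by
        rw [← hDD]
        exact_mod_cast hc4'
      have f2 : (8000 : ℝ) ≤ n.2 := by
        rw [← hDD]
        exact_mod_cast hc5'
      refine ⟨u :: l', ?_, ?_, ?_⟩
      · intro u' hu'
        rcases List.mem_cons.1 hu' with rfl | hu'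
        · rw [abs_le] at e1 e2
          exact ⟨hu, by linarith [e1.1], by linarith [e2.1]⟩
        · exact hl1 u' hu'
      · exact ⟨h3.1, hl2⟩
      · have h4 := h3.2
        rw [List.cons_append]
        simp only [fan]
        push_cast at h4 hl3 ⊢
        linarith

/-- Soundness of the checker `chain`. -/
theorem chain_sound {w : ℕ} (hw : w < 3) {K : Set (ℝ × ℝ)} (hK : Convex ℝ K)
    (hv0 : ((1 / 2, -1 / 2) : ℝ × ℝ) ∈ K) (hv2 : ((0, 1 / 2) : ℝ × ℝ) ∈ K)
    (hv4 : ((-1 / 2, 0) : ℝ × ℝ) ∈ K)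
    (l : List (ℕ × ℕ)) (hN : ∀ u ∈ l, NW K w u) (h : 0 < chain (Nn / 2) 0 1 l) :
    ENNReal.ofReal (((chain (Nn / 2) 0 1 l : ℝ) - 1) / (2 * 100000000000000000000000 ^ 2)) ≤
      volume (win w '' K ∩ Quad) := by
  have h0 : ((0, 0) : ℝ × ℝ) ∈ K := by
    have h1 : (1 / 3 : ℝ) • ((1 / 2, -1 / 2) : ℝ × ℝ) + (2 / 3 : ℝ) • ((-1 / 4, 1 / 4) : ℝ × ℝ) ∈ K := by
      refine hK hv0 ?_ (by norm_num) (by norm_num) (by norm_num)
      have h2 : (1 / 2 : ℝ) • ((0, 1 / 2) : ℝ × ℝ) + (1 / 2 : ℝ) • ((-1 / 2, 0) : ℝ × ℝ) ∈ K :=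
        hK hv2 hv4 (by norm_num) (by norm_num) (by norm_num)
      convert h2 using 1
      ext <;> norm_num
    convert h1 using 1
    ext <;> norm_num
  have hends : ((1 / 2, 0) : ℝ × ℝ) ∈ win w '' K ∧ ((0, 1 / 2) : ℝ × ℝ) ∈ win w '' K ∧
      ((0, 0) : ℝ × ℝ) ∈ win w '' K := by
    interval_cases w
    · exact ⟨⟨_, hv0, by norm_num [win]⟩, ⟨_, hv2, by simp [win]⟩, ⟨_, h0, by simp [win]⟩⟩
    · exact ⟨⟨_, hv2, by simp [win]⟩, ⟨_, hv4, by norm_num [win]⟩, ⟨_, h0, by simp [win]⟩⟩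
    · exact ⟨⟨_, hv4, by norm_num [win]⟩, ⟨_, hv0, by norm_num [win]⟩, ⟨_, h0, by simp [win]⟩⟩
  obtain ⟨l', hl1, hl2, hl3⟩ := chain_ind (K := K) (w := w) l (Nn / 2) 0 1 (1 / 2, 0)
    (by unfold Nn; norm_num) (Nat.zero_le _) (by
      unfold Nn
      norm_num) (by norm_num) hN h
  have h1 := sector_vol (win_convex hK w) hends.2.2 (l' ++ [(0, 1 / 2)]) (1 / 2, 0) hends.1
    (by norm_num) (by norm_num) (by
      intro u hu
      rw [List.mem_append] at hu
      rcases hu with hu | hu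
      · exact hl1 u hu
      · rw [List.mem_singleton] at hu
        rw [hu]
        exact ⟨hends.2.1, by norm_num, by norm_num⟩) hl2 0 le_rfl (by simp)
  refine le_trans (ENNReal.ofReal_le_ofReal ?_) h1
  rw [zero_add, div_le_div_iff₀ (by positivity) (by positivity)]
  push_cast at hl3
  linarith

end PoolOct
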