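import Pool.Agent.LebHex.Base

/-! # Displacement covers inside Pal's octagon: data formats and checkers

Coordinates `(p, q)` as in `Pool.Agent.LebHex.Defs`; the scale is `10^23`. -/

namespace PoolOct

open PoolHex (rot6 nrm fn Seg BCert)

/-- scale: coordinates are integers in units of `1/N` -/
def N : ℤ := 100000000000000000000000
/-- the same scale, as a natural number -/
def Nn : ℕ := 100000000000000000000000
/-- slope denominator -/
def Q : ℤ := 300000000000000000000000
/-- slope gap -/
def sg : ℤ := 3000
/-- tolerance of the contact points -/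
def d0 : ℤ := 50
/-- position tolerance of the chains -/
def DD : ℕ := 8000
/-- loss per edge -/
def kap : ℕ := 3 * DD * Nn
/-- twice the area threshold (in the `(p, q)` plane), in units `1/N^2` -/
def TT : ℕ := 14620893988407434153270400000000000000000000000

/-- a finite set of points -/
abbrev Pts : Type := List (ℤ × ℤ)

def pt (B : Pts) (j : ℕ) : ℤ × ℤ := B.getD j (0, 0)

/-- all pairs of points of the list are at distance at most `1` -/
def pairOK (v : ℤ × ℤ) : Pts → Bool
  | [] => true
  | w :: l => decide (4 * nrm (v.1 - w.1, v.2 - w.2) ≤ 3 * N * N) && pairOK v l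

def diamOK : Pts → Bool
  | [] => true
  | v :: l => pairOK v l && diamOK l

/-- the value at rotation zero of the sum of three support values -/
def segA (B : Pts) (g : Seg) : ℤ :=
  let v := (pt B g.a).1 + (pt B g.b).2 - (pt B g.c).1 - (pt B g.c).2
  if g.sgn then v else -v

/-- the derivative -/
def segB (B : Pts) (g : Seg) : ℤ :=
  let v := -((pt B g.a).1 + 2 * (pt B g.a).2) + (2 * (pt B g.b).1 + (pt B g.b).2)
    + ((pt B g.c).2 - (pt B g.c).1)
  if g.sgn then v else -v

def endOK (A B s : ℤ) : Bool :=
  decide (0 < Q * A + s * B) &&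
    decide (9 * N * N * (Q * Q + 3 * s * s) < 4 * (Q * A + s * B) * (Q * A + s * B))

def segOK (B : Pts) (s : ℤ) (g : Seg) : Bool :=
  decide (g.a < B.length) && decide (g.b < B.length) && decide (g.c < B.length) &&
    endOK (segA B g) (segB B g) s && endOK (segA B g) (segB B g) g.s

/-- segments covering the slopes from `s` up to `e` -/
def exclOK (B : Pts) (e : ℤ) : ℤ → List Seg → Bool
  | s, [] => decide (e ≤ s)
  | s, g :: l => segOK B s g && exclOK B e g.s l

/-- a point of the body almost touches each side -/
def contOK (B : Pts) : ℕ → List ℕ → Bool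
  | k, [] => decide (6 ≤ k)
  | k, j :: l => decide (j < B.length) && decide (N ≤ 2 * (fn k (pt B j) + d0)) && contOK B (k + 1) l

/-- the points are in the hexagon -/
def inOK : Pts → Bool
  | [] => true
  | v :: l => decide (2 * |v.1| ≤ N) && decide (2 * |v.2| ≤ N) && decide (2 * |v.1 + v.2| ≤ N) && inOK l

def bodyOK (B : Pts) (c : BCert) : Bool :=
  decide (2 ≤ B.length) && inOK B && diamOK B &&
    decide (4 * nrm ((pt B 0).1 - (pt B 1).1, (pt B 0).2 - (pt B 1).2) = 3 * N * N) &&
    contOK B 0 c.cont && exclOK B (-sg) (-100000000000000000000000) c.left &&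
    exclOK B 100000000000000000000001 sg c.right

/-- an upper bound of `sqrt 3 / 2`, in units of `1/N` -/
def h3 : ℤ := 86602540378443864676373

/-- point `j` of the copy number `k` is beyond one of the two cuts -/
def cutOK (B : Pts) (k j : ℕ) : Bool :=
  decide (j < B.length) &&
    (decide (h3 + 20000 < 2 * (rot6 k (pt B j)).1 + (rot6 k (pt B j)).2) ||
      decide (h3 + 20000 < (rot6 k (pt B j)).2 - (rot6 k (pt B j)).1))

/-- the real point of an integer point -/
noncomputable def toR (P : ℤ × ℤ) : ℝ × ℝ :=
  ((P.1 : ℝ) / 100000000000000000000000, (P.2 : ℝ) / 100000000000000000000000)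

/-- `z` is within the tolerance of the integer point `P` -/
def Cl (z : ℝ × ℝ) (P : ℤ × ℤ) : Prop :=
  |100000000000000000000000 * z.1 - P.1| ≤ 3200 ∧ |100000000000000000000000 * z.2 - P.2| ≤ 3200 ∧
    |100000000000000000000000 * (z.1 + z.2) - (P.1 + P.2)| ≤ 3200

/-- Pal's octagon: the hexagon without the corners `(1/2, 0)` and `(-1/2, 1/2)` -/
def Oc : Set (ℝ × ℝ) :=
  {v | v ∈ PoolHex.Hx ∧ 2 * v.1 + v.2 ≤ Real.sqrt 3 / 2 ∧ v.2 - v.1 ≤ Real.sqrt 3 / 2}

end PoolOct
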