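import Pool.Agent.LebOct.Defs
import Pool.Agent.LebHex.S4

/-! # Octagon: exclusion of rotation angles -/

namespace PoolOct

open PoolHex (rot6 nrm fn Seg BCert Hx act nR hex4_mid hex4_contra)

/-- Linear against convex: if the strict inequality holds at both ends, it holds in between. Proof:
with `W y = Q A + y B`, `N y z = Q^2 + 3 y z`, `c = 9 * 10^26`: `c N s s < 4 (W s)^2`,
`c N e e < 4 (W e)^2` and `(N s e)^2 ≤ N s s * N e e` give `c N s e ≤ 4 W s W e`
(`abs_le_of_sq_le_sq` or by contradiction). If `x = (1-u) s + u e`, `0 ≤ u ≤ 1`, then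
`4 (W x)^2 - c N x x = (1-u)^2 (4 (W s)^2 - c N s s) + 2 u (1-u) (4 W s W e - c N s e)
+ u^2 (4 (W e)^2 - c N e e) > 0`. (If `s = e` trivial.) -/
theorem mid_ineq {A B s e x : ℝ} (hs : 0 < 300000000000000000000000 * A + s * B)
    (hs2 : 9 * 100000000000000000000000 * 100000000000000000000000 * (300000000000000000000000 * 300000000000000000000000 + 3 * s * s) <
      4 * (300000000000000000000000 * A + s * B) * (300000000000000000000000 * A + s * B))
    (he : 0 < 300000000000000000000000 * A + e * B)
    (he2 : 9 * 100000000000000000000000 * 100000000000000000000000 * (300000000000000000000000 * 300000000000000000000000 + 3 * e * e) <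
      4 * (300000000000000000000000 * A + e * B) * (300000000000000000000000 * A + e * B))
    (h1 : s ≤ x) (h2 : x ≤ e) :
    0 < 300000000000000000000000 * A + x * B ∧
    9 * 100000000000000000000000 * 100000000000000000000000 * (300000000000000000000000 * 300000000000000000000000 + 3 * x * x) <
      4 * (300000000000000000000000 * A + x * B) * (300000000000000000000000 * A + x * B) := by
  have hs2' : (9 * 100000000000000000000000 * 100000000000000000000000 : ℝ) *
      (300000000000000000000000 * 300000000000000000000000 + 3 * s * s) <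
      4 * (300000000000000000000000 * A + s * B) * (300000000000000000000000 * A + s * B) := hs2
  exact hex4_mid (q := 300000000000000000000000) (c := 9 * 100000000000000000000000 * 100000000000000000000000)
    (by norm_num) (by norm_num) hs hs2' he he2 h1 h2

theorem hex4_end {A B s : ℤ} (h : endOK A B s = true) :
    (0 : ℝ) < 300000000000000000000000 * A + s * B ∧
    (9 * 100000000000000000000000 * 100000000000000000000000 * (300000000000000000000000 * 300000000000000000000000 + 3 * s * s) : ℝ) <
      4 * (300000000000000000000000 * A + s * B) * (300000000000000000000000 * A + s * B) := by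
  unfold endOK at h
  rw [Bool.and_eq_true, decide_eq_true_iff, decide_eq_true_iff] at h
  obtain ⟨h1, h2⟩ := h
  unfold Q at h1 h2
  unfold N at h2
  constructor
  · exact_mod_cast h1
  · exact_mod_cast h2

/-- one segment: if the points of the body `B` are moved into the hexagon by the motion with slope
`x = Q * be / al`, then `x` is not in the segment. Proof: add the three contact inequalities (the
translation cancels), multiply by `300000000000000000000000`, and compare with `mid_ineq` using
`al ^ 2 * (Q ^ 2 + 3 x ^ 2) = Q ^ 2`. -/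
theorem seg_sound {B : Pts} {s : ℤ} {g : Seg} (h : segOK B s g = true) {al be x : ℝ} {t : ℝ × ℝ}
    (hal : 0 < al) (hn : al ^ 2 + 3 * be ^ 2 = 1) (hx : 300000000000000000000000 * be = x * al)
    (hin : ∀ j < B.length, act al be t (toR (pt B j)) ∈ Hx) (h1 : (s : ℝ) ≤ x) (h2 : x ≤ (g.s : ℝ)) :
    False := by
  unfold segOK at h
  simp only [Bool.and_eq_true, decide_eq_true_iff] at h
  obtain ⟨⟨⟨⟨ha, hb⟩, hc⟩, he1⟩, he2⟩ := h
  obtain ⟨k1, k2⟩ := hex4_end he1
  obtain ⟨k3, k4⟩ := hex4_end he2
  obtain ⟨m1, m2⟩ := mid_ineq k1 k2 k3 k4 h1 h2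
  refine hex4_contra (q := 300000000000000000000000) (c := 9 * 100000000000000000000000 * 100000000000000000000000)
    (d := 300000000000000000000000) (by norm_num) (by norm_num) (by norm_num) hal hn hx m1 m2 ?_
  have a1 := hin g.a ha
  have a2 := hin g.b hb
  have a3 := hin g.c hc
  unfold segA segB
  simp only [Hx, act, toR, Set.mem_ofPred_eq, abs_le] at a1 a2 a3
  obtain ⟨⟨u1, u2⟩, _, _⟩ := a1
  obtain ⟨_, ⟨v1, v2⟩, _⟩ := a2
  obtain ⟨_, _, ⟨w1, w2⟩⟩ := a3
  cases g.sgn
  · simp only [Bool.false_eq_true, if_false]
    push_cast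
    nlinarith
  · simp only [if_true]
    push_cast
    nlinarith

theorem excl_sound {B : Pts} {e : ℤ} (l : List Seg) (s : ℤ) (h : exclOK B e s l = true)
    {al be x : ℝ} {t : ℝ × ℝ} (hal : 0 < al) (hn : al ^ 2 + 3 * be ^ 2 = 1)
    (hx : 300000000000000000000000 * be = x * al)
    (hin : ∀ j < B.length, act al be t (toR (pt B j)) ∈ Hx) (h1 : (s : ℝ) ≤ x) (h2 : x < (e : ℝ)) :
    False := by
  induction l generalizing s with
  | nil =>
    rw [exclOK, decide_eq_true_iff] at h
    have h3 : (e : ℝ) ≤ s := by exact_mod_cast h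
    linarith
  | cons g l ih =>
    rw [exclOK, Bool.and_eq_true] at h
    rcases le_total x (g.s : ℝ) with hx1 | hx1
    · exact seg_sound h.1 hal hn hx hin h1 hx1
    · exact ih g.s h.2 hx1

end PoolOct
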