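import Pool.Agent.LebOct.Dat
import Pool.Agent.LebOct.DatA

/-! # Octagon: the area bound -/

open MeasureTheory

namespace PoolOct

open PoolHex (rot6 nrm fn Seg BCert Hx act nR rotR Cov win Quad three_windows)

/-- half of the scale, as a natural number -/
def Hn : ℕ := 50000000000000000000000

def dk (a b : ℕ) : Bool := Nat.ble (4 * (a * a + b * b)) (3 * Nn * Nn + 4 * (a * b))

/-- the point with window coordinates `X, Y` is in the corner region -/
def raOK (v : ℕ × ℕ) : Bool :=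
  Nat.ble (2 * v.1) Nn && Nat.ble (2 * v.2) Nn && Nat.ble Nn (v.1 + v.2 + tQ) &&
    dk (v.1 + Hn) (v.2 + tQ) && dk (v.1 + tQ) (v.2 + Hn)

def ax (D j : ℕ) : ℕ := (D >>> (160 * j)) % 1208925819614629174706176
def ay (D j : ℕ) : ℕ := (D >>> (160 * j + 80)) % 1208925819614629174706176

def arcL (D : ℕ) : ℕ → ℕ → List (ℕ × ℕ)
  | 0, _ => []
  | n + 1, j => (ax D j, ay D j) :: arcL D n (j + 1)

def allOK : List (ℕ × ℕ) → Bool
  | [] => true
  | v :: l => raOK v && allOK l

theorem all_get : ∀ {l : List (ℕ × ℕ)}, allOK l = true → ∀ v ∈ l, raOK v = true := by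
  intro l
  induction l with
  | nil =>
    intro _ v hv
    exact absurd hv List.not_mem_nil
  | cons w l ih =>
    intro h v hv
    rw [allOK, Bool.and_eq_true] at h
    rcases List.mem_cons.1 hv with rfl | hv
    · exact h.1
    · exact ih h.2 v hv

theorem arc_ok : allOK (arcL dA nA 0) = true := by decide +kernel

/-- the real point with window coordinates `X, Y` -/
noncomputable def vR (v : ℕ × ℕ) : ℝ × ℝ :=
  (((v.2 : ℝ) - v.1) / 100000000000000000000000, -(v.2 : ℝ) / 100000000000000000000000)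

theorem dk_real {a b : ℕ} (h : dk a b = true) :
    (4 : ℝ) * ((a : ℝ) ^ 2 - a * b + (b : ℝ) ^ 2) ≤ 3 * 100000000000000000000000 ^ 2 := by
  unfold dk at h
  have h1 := Nat.le_of_ble_eq_true h
  have h2 : ((4 * (a * a + b * b) : ℕ) : ℝ) ≤ ((3 * Nn * Nn + 4 * (a * b) : ℕ) : ℝ) := Nat.cast_le.2 h1
  have h6 : (Nn : ℝ) = 100000000000000000000000 := by
    unfold Nn
    norm_num
  push_cast at h2
  rw [h6] at h2
  nlinarith

theorem ra_sound {v : ℕ × ℕ} (h : raOK v = true) : vR v ∈ RA tQ ∧ vR v.swap ∈ RA tQ := by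
  unfold raOK at h
  simp only [Bool.and_eq_true] at h
  obtain ⟨⟨⟨⟨h1, h2⟩, h3⟩, h4⟩, h5⟩ := h
  have h6 : (Nn : ℝ) = 100000000000000000000000 := by
    unfold Nn
    norm_num
  have k1 : (2 : ℝ) * v.1 ≤ 100000000000000000000000 := by
    rw [← h6]
    exact_mod_cast Nat.le_of_ble_eq_true h1
  have k2 : (2 : ℝ) * v.2 ≤ 100000000000000000000000 := by
    rw [← h6]
    exact_mod_cast Nat.le_of_ble_eq_true h2
  have k3 : (100000000000000000000000 : ℝ) ≤ v.1 + v.2 + tQ := by
    rw [← h6]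
    exact_mod_cast Nat.le_of_ble_eq_true h3
  have k4 := dk_real h4
  have k5 := dk_real h5
  have hH : (Hn : ℝ) = 50000000000000000000000 := by
    unfold Hn
    norm_num
  push_cast at k4 k5
  rw [hH] at k4 k5
  have key : ∀ x y : ℝ, 4 * ((x + 50000000000000000000000) ^ 2 -
      (x + 50000000000000000000000) * (y + tQ) + (y + tQ) ^ 2) ≤ 3 * 100000000000000000000000 ^ 2 →
      4 * ((x + tQ) ^ 2 - (x + tQ) * (y + 50000000000000000000000) + (y + 50000000000000000000000) ^ 2)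
        ≤ 3 * 100000000000000000000000 ^ 2 →
      2 * x ≤ 100000000000000000000000 → 2 * y ≤ 100000000000000000000000 →
      100000000000000000000000 ≤ x + y + (tQ : ℝ) →
      (((y - x) / 100000000000000000000000, -y / 100000000000000000000000) : ℝ × ℝ) ∈ RA tQ := by
    intro x y e1 e2 e3 e4 e5
    refine ⟨?_, ?_, ?_, ?_, ?_⟩
    · simp only [nR, toR, Hh, Prod.fst_sub, Prod.snd_sub]
      push_cast
      linarith
    · simp only [nR, toR, Hh, Prod.fst_sub, Prod.snd_sub]
      push_cast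
      linarith
    · simp only []
      linarith
    · simp only []
      linarith
    · simp only []
      push_cast
      linarith
  constructor
  · exact key v.1 v.2 k4 k5 k1 k2 k3
  · refine key v.2 v.1 ?_ ?_ k2 k1 (by linarith)
    · linarith
    · linarith

/-- a point of one of the two bodies: the flag is `true` for the pentagon body -/
def cP (c : Bool × ℕ) : ℤ × ℤ := pt (bif c.1 then BQ else BI) c.2

def winI (w : ℕ) (v : ℤ × ℤ) : ℤ × ℤ :=
  match w with
  | 0 => (v.1, v.1 + v.2)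
  | 1 => (v.2, -v.1)
  | _ => (-v.1 - v.2, -v.2)

def cN (w : ℕ) (c : Bool × ℕ) : ℕ × ℕ := ((winI w (cP c)).1.toNat, (winI w (cP c)).2.toNat)

def cOK (w : ℕ) (c : Bool × ℕ) : Bool :=
  decide (c.2 < (bif c.1 then BQ else BI).length) && decide (0 ≤ (winI w (cP c)).1) &&
    decide (0 ≤ (winI w (cP c)).2)

theorem win_near {K : Set (ℝ × ℝ)} {w : ℕ} (hw : w < 3) {P : ℤ × ℤ} {z : ℝ × ℝ} (hz : z ∈ K)
    (hc : Cl z P) (h1 : 0 ≤ (winI w P).1) (h2 : 0 ≤ (winI w P).2) :
    NW K w ((winI w P).1.toNat, (winI w P).2.toNat) := by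
  refine ⟨win w z, ⟨z, hz, rfl⟩, ?_, ?_⟩
  · have e : (((winI w P).1.toNat : ℕ) : ℝ) = ((winI w P).1 : ℝ) := by
      have := Int.toNat_of_nonneg h1
      exact_mod_cast this
    simp only [e]
    obtain ⟨c1, c2, c3⟩ := hc
    rw [abs_le] at c1 c2 c3
    interval_cases w <;> simp only [win, winI] <;> push_cast <;> rw [abs_le] <;>
      constructor <;> linarith [c1.1, c1.2, c2.1, c2.2, c3.1, c3.2]
  · have e : (((winI w P).2.toNat : ℕ) : ℝ) = ((winI w P).2 : ℝ) := by
      have := Int.toNat_of_nonneg h2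
      exact_mod_cast this
    simp only [e]
    obtain ⟨c1, c2, c3⟩ := hc
    rw [abs_le] at c1 c2 c3
    interval_cases w <;> simp only [win, winI] <;> push_cast <;> rw [abs_le] <;>
      constructor <;> linarith [c1.1, c1.2, c2.1, c2.2, c3.1, c3.2]

def l0 : List (ℕ × ℕ) := [cN 0 (false, 0), cN 0 (false, 4), cN 0 (true, 2)]
def l1 : List (ℕ × ℕ) := [cN 1 (true, 3), cN 1 (false, 5), cN 1 (false, 1)]
def l2 : List (ℕ × ℕ) :=
  cN 2 (true, 4) :: (arcL dA nA 0 ++ (cN 2 (true, 6) ::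
    (((arcL dA nA 0).map Prod.swap).reverse ++ [cN 2 (true, 5)])))

def r0 : ℕ := chain (Nn / 2) 0 1 l0
def r1 : ℕ := chain (Nn / 2) 0 1 l1
def r2 : ℕ := chain (Nn / 2) 0 1 l2

theorem sum_ok : (Nat.blt 0 r0 && Nat.blt 0 r1 && Nat.blt 0 r2 && Nat.ble (TT + 3) (r0 + r1 + r2)) = true := by
  decide +kernel

end PoolOct
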