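import Pool.Agent.LebOct.Fin
import Pool.Agent.LebHex.S9

/-! # Octagon: the theorem -/

open MeasureTheory

namespace PoolOct

open PoolHex (rot6 nrm fn Seg BCert Hx act nR rotR Cov win Quad three_windows Pl mot DCov Phi Phi_vol
  Phi_convex Phi_hex Phi_cov move_cov Hex)

theorem tri_ok : triOK BQ tQ 2 3 BQ.length = true := by decide +kernel

theorem c_near {K : Set (ℝ × ℝ)} (hI : ∀ j < BI.length, ∃ z ∈ K, Cl z (pt BI j))
    (hQ : ∀ j < BQ.length, ∃ z ∈ K, Cl z (pt BQ j)) {w : ℕ} (hw : w < 3) (c : Bool × ℕ)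
    (h : cOK w c = true) : NW K w (cN w c) := by
  unfold cOK at h
  simp only [Bool.and_eq_true, decide_eq_true_iff] at h
  obtain ⟨⟨h0, h1⟩, h2⟩ := h
  have h3 : ∃ z ∈ K, Cl z (cP c) := by
    unfold cP
    cases hc : c.1 with
    | false =>
      rw [hc] at h0
      exact hI _ h0
    | true =>
      rw [hc] at h0
      exact hQ _ h0
  obtain ⟨z, hz, hcl⟩ := h3
  exact win_near hw hz hcl h1 h2

theorem area_bound {K : Set (ℝ × ℝ)} (hconv : Convex ℝ K) (hcov : Cov K) (hsub : K ⊆ Oc) :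
    ENNReal.ofReal ((TT : ℝ) / (2 * 100000000000000000000000 ^ 2)) ≤ volume K := by
  obtain ⟨v0, v2, v4⟩ := corners hcov hsub
  obtain ⟨al', be', t', hI1, hI2, _⟩ := body_oct okI cutsI (A := ∅) (by simp) (by simp) hcov hsub
  have hT : (0 : ℤ) < tQ := by decide +kernel
  obtain ⟨al, be, t, hQ1, hQ2, hQ3⟩ := body_oct okQ cutsQ (A := RA tQ)
    (RA_diam hT (by decide +kernel))
    (RA_body hT tri_ok (by decide +kernel) (by decide +kernel)) hcov hsub
  have hI : ∀ j < BI.length, ∃ z ∈ K, Cl z (pt BI j) := fun j hj => ⟨_, hI1 j hj, hI2 j hj⟩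
  have hQ : ∀ j < BQ.length, ∃ z ∈ K, Cl z (pt BQ j) := fun j hj => ⟨_, hQ1 j hj, hQ2 j hj⟩
  have e4 : pt BQ 4 = (-(tQ : ℤ), (tQ : ℤ) - Hh) := by decide +kernel
  have e5 : pt BQ 5 = ((tQ : ℤ), -Hh) := by decide +kernel
  have e6 : pt BQ 6 = (0, -(zQ : ℤ)) := by decide +kernel
  have c4 := hQ2 4 (by decide +kernel)
  have c5 := hQ2 5 (by decide +kernel)
  have c6 := hQ2 6 (by decide +kernel)
  rw [e4] at c4
  rw [e5] at c5
  rw [e6] at c6
  have hnear : ∀ v : ℕ × ℕ, vR v ∈ RA tQ → NW K 2 v := by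
    intro v hv
    obtain ⟨k1, k2⟩ := RA_close hT (by decide +kernel) c4 c5 c6 hv
    refine ⟨win 2 (act al be t (vR v)), ⟨_, hQ3 _ hv, rfl⟩, ?_, ?_⟩
    · simp only [win]
      rw [abs_le] at k2 ⊢
      simp only [vR] at k2 ⊢
      constructor <;> linarith [k2.1, k2.2]
    · simp only [win]
      rw [abs_le] at k1 ⊢
      simp only [vR] at k1 ⊢
      constructor <;> linarith [k1.1, k1.2]
  have harc : ∀ v ∈ arcL dA nA 0, NW K 2 v ∧ NW K 2 v.swap := by
    intro v hv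
    have h1 := ra_sound (all_get arc_ok v hv)
    exact ⟨hnear _ h1.1, hnear _ h1.2⟩
  have cn := fun {w : ℕ} (hw : w < 3) c h => c_near hI hQ hw c h
  have n0 : ∀ u ∈ l0, NW K 0 u := by
    intro u hu
    simp only [l0, List.mem_cons, List.not_mem_nil, or_false] at hu
    rcases hu with rfl | rfl | rfl
    · exact cn (by norm_num) _ (by decide +kernel)
    · exact cn (by norm_num) _ (by decide +kernel)
    · exact cn (by norm_num) _ (by decide +kernel)
  have n1 : ∀ u ∈ l1, NW K 1 u := by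
    intro u hu
    simp only [l1, List.mem_cons, List.not_mem_nil, or_false] at hu
    rcases hu with rfl | rfl | rfl
    · exact cn (by norm_num) _ (by decide +kernel)
    · exact cn (by norm_num) _ (by decide +kernel)
    · exact cn (by norm_num) _ (by decide +kernel)
  have n2 : ∀ u ∈ l2, NW K 2 u := by
    intro u hu
    unfold l2 at hu
    rw [List.mem_cons, List.mem_append, List.mem_cons, List.mem_append, List.mem_reverse,
      List.mem_singleton] at hu
    rcases hu with rfl | hu | rfl | hu | rfl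
    · exact cn (by norm_num) _ (by decide +kernel)
    · exact (harc u hu).1
    · exact cn (by norm_num) _ (by decide +kernel)
    · obtain ⟨v, hv, rfl⟩ := List.mem_map.1 hu
      exact (harc v hv).2
    · exact cn (by norm_num) _ (by decide +kernel)
  have hs := sum_ok
  simp only [Bool.and_eq_true] at hs
  obtain ⟨⟨⟨s0, s1⟩, s2⟩, s3⟩ := hs
  rw [Nat.blt_eq] at s0 s1 s2
  rw [Nat.ble_eq] at s3
  have a0 := chain_sound (w := 0) (by norm_num) hconv v0 v2 v4 l0 n0 s0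
  have a1 := chain_sound (w := 1) (by norm_num) hconv v0 v2 v4 l1 n1 s1
  have a2 := chain_sound (w := 2) (by norm_num) hconv v0 v2 v4 l2 n2 s2
  have a3 := three_windows K
  change ENNReal.ofReal (((r0 : ℝ) - 1) / (2 * 100000000000000000000000 ^ 2)) ≤ _ at a0
  change ENNReal.ofReal (((r1 : ℝ) - 1) / (2 * 100000000000000000000000 ^ 2)) ≤ _ at a1
  change ENNReal.ofReal (((r2 : ℝ) - 1) / (2 * 100000000000000000000000 ^ 2)) ≤ _ at a2
  have c0 : (1 : ℝ) ≤ r0 := by exact_mod_cast s0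
  have c1 : (1 : ℝ) ≤ r1 := by exact_mod_cast s1
  have c2 : (1 : ℝ) ≤ r2 := by exact_mod_cast s2
  have c3 : (TT : ℝ) + 3 ≤ r0 + r1 + r2 := by exact_mod_cast s3
  have hd : (0 : ℝ) < 2 * 100000000000000000000000 ^ 2 := by norm_num
  have b0 : 0 ≤ ((r0 : ℝ) - 1) / (2 * 100000000000000000000000 ^ 2) := div_nonneg (by linarith) hd.le
  have b1 : 0 ≤ ((r1 : ℝ) - 1) / (2 * 100000000000000000000000 ^ 2) := div_nonneg (by linarith) hd.le
  have b2 : 0 ≤ ((r2 : ℝ) - 1) / (2 * 100000000000000000000000 ^ 2) := div_nonneg (by linarith) hd.le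
  have a5 := (add_le_add (add_le_add a0 a1) a2).trans a3
  rw [← ENNReal.ofReal_add b0 b1, ← ENNReal.ofReal_add (add_nonneg b0 b1) b2] at a5
  refine le_trans (ENNReal.ofReal_le_ofReal ?_) a5
  rw [← add_div, ← add_div]
  refine div_le_div_of_nonneg_right ?_ hd.le
  linarith

theorem num_bound : Real.sqrt 3 / 2 * (844137708 / 1000000000) ≤
    (TT : ℝ) / (2 * 100000000000000000000000 ^ 2) := by
  have h : Real.sqrt 3 ≤ 173205080756888 / 100000000000000 := by
    rw [show (173205080756888 / 100000000000000 : ℝ) =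
      Real.sqrt ((173205080756888 / 100000000000000) ^ 2) by
        rw [Real.sqrt_sq (by norm_num)]]
    apply Real.sqrt_le_sqrt
    norm_num
  have : ((TT : ℕ) : ℝ) = 14620893988407434153270400000000000000000000000 := by
    unfold TT
    norm_num
  rw [this]
  linarith [h]

/-- Pal's octagon in the Euclidean plane -/
def Oct : Set Pl :=
  {x | |x 1| ≤ 1 / 2 ∧ |Real.sqrt 3 / 2 * x 0 + 1 / 2 * x 1| ≤ 1 / 2 ∧
    |Real.sqrt 3 / 2 * x 0 - 1 / 2 * x 1| ≤ 1 / 2 ∧ 1 / 2 * x 0 + Real.sqrt 3 / 2 * x 1 ≤ 1 / 2 ∧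
      -x 0 ≤ 1 / 2}

theorem Phi_oct {R : Set Pl} (h : R ⊆ Oct) : Phi '' R ⊆ Oc := by
  rintro _ ⟨x, hx, rfl⟩
  obtain ⟨h1, h2, h3, h4, h5⟩ := h hx
  have hh : R ∩ {x} ⊆ Hex := by
    rintro y ⟨_, hy⟩
    rw [Set.mem_singleton_iff] at hy
    subst hy
    exact ⟨h1, h2, h3⟩
  have h6 : Phi x ∈ Hx := Phi_hex hh ⟨x, ⟨hx, rfl⟩, rfl⟩
  have hs : Real.sqrt 3 * Real.sqrt 3 = 3 := Real.mul_self_sqrt (by norm_num)
  have hp : 0 < Real.sqrt 3 := Real.sqrt_pos.2 (by norm_num)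
  refine ⟨h6, ?_, ?_⟩
  · simp only [Phi]
    have := mul_le_mul_of_nonneg_left h4 hp.le
    nlinarith
  · simp only [Phi]
    have := mul_le_mul_of_nonneg_left h5 hp.le
    linarith

theorem main_bound {R : Set Pl} (h : DCov R) (hc : Convex ℝ R) {θ : ℝ} {a : Pl}
    (hh : ∀ x ∈ R, mot θ a x ∈ Oct) : ENNReal.ofReal (844137708 / 1000000000) ≤ volume R := by
  have hhex : ∀ x ∈ R, mot θ a x ∈ Hex := fun x hx => ⟨(hh x hx).1, (hh x hx).2.1, (hh x hx).2.2.1⟩
  obtain ⟨c1, c2, c3, c4⟩ := move_cov h hc hhex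
  have ho : mot θ a '' R ⊆ Oct := by
    rintro _ ⟨x, hx, rfl⟩
    exact hh x hx
  have h1 := area_bound (Phi_convex c2) (Phi_cov c1) (Phi_oct ho)
  rw [Phi_vol, c4] at h1
  have h2 : ENNReal.ofReal (Real.sqrt 3 / 2) * ENNReal.ofReal (844137708 / 1000000000) ≤
      ENNReal.ofReal (Real.sqrt 3 / 2) * volume R := by
    rw [← ENNReal.ofReal_mul (by positivity)]
    exact (ENNReal.ofReal_le_ofReal num_bound).trans h1
  have h3 : ENNReal.ofReal (Real.sqrt 3 / 2) ≠ 0 := (ENNReal.ofReal_pos.mpr (by positivity)).ne'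
  exact (ENNReal.mul_le_mul_iff_right h3 ENNReal.ofReal_ne_top).1 h2

end PoolOct
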