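import Pool.Agent.LebOct.Body
import Pool.Agent.LebHex.S8

/-! # Octagon: the equilateral triangle -/

namespace PoolOct

open PoolHex (Hx act nR Cov hex8b_six)

theorem tri {K : Set (ℝ × ℝ)} (hcov : Cov K) (hsub : K ⊆ Hx) :
    (((1 / 2, -1 / 2) : ℝ × ℝ) ∈ K ∧ ((0, 1 / 2) : ℝ × ℝ) ∈ K ∧ ((-1 / 2, 0) : ℝ × ℝ) ∈ K) ∨
    (((1 / 2, 0) : ℝ × ℝ) ∈ K ∧ ((-1 / 2, 1 / 2) : ℝ × ℝ) ∈ K ∧ ((0, -1 / 2) : ℝ × ℝ) ∈ K) := by
  obtain ⟨al, be, ⟨t, u⟩, hn, hK⟩ := hcov {((1 / 2, -1 / 2) : ℝ × ℝ), ((0, 1 / 2) : ℝ × ℝ), ((-1 / 2, 0) : ℝ × ℝ)}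
    (by
      intro v hv w hw
      simp only [Set.mem_insert_iff, Set.mem_singleton_iff] at hv hw
      rcases hv with rfl | rfl | rfl <;> rcases hw with rfl | rfl | rfl <;>
        (simp only [nR, Prod.fst_sub, Prod.snd_sub]; norm_num))
    ⟨((1 / 2, -1 / 2) : ℝ × ℝ), by simp, ((0, 1 / 2) : ℝ × ℝ), by simp, by
      simp only [nR, Prod.fst_sub, Prod.snd_sub]; norm_num⟩
  have hP0 := hK ((1 / 2, -1 / 2) : ℝ × ℝ) (by simp)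
  have hP2 := hK ((0, 1 / 2) : ℝ × ℝ) (by simp)
  have hP4 := hK ((-1 / 2, 0) : ℝ × ℝ) (by simp)
  have e0 : act al be (t, u) ((1 / 2, -1 / 2) : ℝ × ℝ) = (al / 2 + be / 2 + t, -al / 2 + be / 2 + u) := by
    unfold act
    refine Prod.ext ?_ ?_
    · show al * (1 / 2) - be * (1 / 2 + 2 * (-1 / 2)) + t = al / 2 + be / 2 + t
      ring
    · show al * (-1 / 2) + be * (2 * (1 / 2) + -1 / 2) + u = -al / 2 + be / 2 + u
      ring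
  have e2 : act al be (t, u) ((0, 1 / 2) : ℝ × ℝ) = (-be + t, al / 2 + be / 2 + u) := by
    unfold act
    refine Prod.ext ?_ ?_
    · show al * 0 - be * (0 + 2 * (1 / 2)) + t = -be + t
      ring
    · show al * (1 / 2) + be * (2 * 0 + 1 / 2) + u = al / 2 + be / 2 + u
      ring
  have e4 : act al be (t, u) ((-1 / 2, 0) : ℝ × ℝ) = (-al / 2 + be / 2 + t, -be + u) := by
    unfold act
    refine Prod.ext ?_ ?_
    · show al * (-1 / 2) - be * (-1 / 2 + 2 * 0) + t = -al / 2 + be / 2 + t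
      ring
    · show al * 0 + be * (2 * (-1 / 2) + 0) + u = -be + u
      ring
  rw [e0] at hP0
  rw [e2] at hP2
  rw [e4] at hP4
  obtain ⟨a1, a2, a3⟩ := hsub hP0
  obtain ⟨b1, b2, b3⟩ := hsub hP2
  obtain ⟨c1, c2, c3⟩ := hsub hP4
  rw [abs_le] at a1 a2 a3 b1 b2 b3 c1 c2 c3
  obtain ⟨a1, a1'⟩ := a1
  obtain ⟨a2, a2'⟩ := a2
  obtain ⟨a3, a3'⟩ := a3
  obtain ⟨b1, b1'⟩ := b1
  obtain ⟨b2, b2'⟩ := b2
  obtain ⟨b3, b3'⟩ := b3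
  obtain ⟨c1, c1'⟩ := c1
  obtain ⟨c2, c2'⟩ := c2
  obtain ⟨c3, c3'⟩ := c3
  dsimp only at a1 a1' a2 a2' a3 a3' b1 b1' b2 b2' b3 b3' c1 c1' c2 c2' c3 c3'
  have key := hex8b_six hn (by linarith) (by linarith) (by linarith) (by linarith) (by linarith) (by linarith)
  have ht : t = 0 := by
    rcases key with ⟨h1, h2 | h2⟩ | ⟨h1 | h1, h2 | h2⟩ <;> linarith
  have hu : u = 0 := by
    rcases key with ⟨h1, h2 | h2⟩ | ⟨h1 | h1, h2 | h2⟩ <;> linarith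
  rw [ht, hu] at hP0 hP2 hP4
  rcases key with ⟨rfl, rfl | rfl⟩ | ⟨rfl | rfl, rfl | rfl⟩ <;> norm_num at hP0 hP2 hP4 <;> norm_num
  · exact Or.inl ⟨hP0, hP2, hP4⟩
  · exact Or.inr ⟨hP4, hP0, hP2⟩
  · exact Or.inr ⟨hP0, hP2, hP4⟩
  · exact Or.inl ⟨hP4, hP0, hP2⟩
  · exact Or.inr ⟨hP2, hP4, hP0⟩
  · exact Or.inl ⟨hP2, hP4, hP0⟩


/-- the three even corners are in the cover -/
theorem corners {K : Set (ℝ × ℝ)} (hcov : Cov K) (hsub : K ⊆ Oc) :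
    ((1 / 2, -1 / 2) : ℝ × ℝ) ∈ K ∧ ((0, 1 / 2) : ℝ × ℝ) ∈ K ∧ ((-1 / 2, 0) : ℝ × ℝ) ∈ K := by
  rcases tri hcov (fun v hv => (hsub hv).1) with h | h
  · exact h
  · exfalso
    have h1 := (hsub h.1).2.1
    have h2 : Real.sqrt 3 < 2 := by
      rw [show (2 : ℝ) = Real.sqrt (2 ^ 2) by rw [Real.sqrt_sq (by norm_num)]]
      exact Real.sqrt_lt_sqrt (by norm_num) (by norm_num)
    norm_num at h1
    linarith

end PoolOct
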